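import Pool.Agent.Lib.MP_a0087d_lc.Main

set_option autoImplicit false

namespace Pool.Agent.Results.MP_a0087d_lc.SpanAtomless

/-- `M` is a c.e. subset of `B`, coinfinite in `B`, and maximal in `B`. -/
def MaximalIn {V : Type} [Primcodable V] (B M : Set V) : Prop :=
  (REPred fun v => v ∈ M) ∧ M ⊆ B ∧ (B \ M).Infinite ∧
    ∀ W : Set V, (REPred fun v => v ∈ W) → M ⊆ W → W ⊆ B → (W \ M).Finite ∨ (B \ W).Finite

/-- `A` is a c.e. subset of `B`, coinfinite in `B`, with no superset maximal in `B`. -/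
def AtomlessIn {V : Type} [Primcodable V] (B A : Set V) : Prop :=
  (REPred fun v => v ∈ A) ∧ A ⊆ B ∧ (B \ A).Infinite ∧ ¬ ∃ M : Set V, A ⊆ M ∧ MaximalIn B M

/-- `M` is a maximal c.e. subspace. -/
def MaximalSubspace {F V : Type} [Field F] [AddCommGroup V] [Module F V] [Primcodable V]
    (M : Submodule F V) : Prop :=
  (REPred fun v => v ∈ M) ∧ ¬ FiniteDimensional F (V ⧸ M) ∧
    ∀ W : Submodule F V, (REPred fun v => v ∈ W) → M ≤ W →
      FiniteDimensional F (W ⧸ M.comap W.subtype) ∨ FiniteDimensional F (V ⧸ W)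

/-- `U` is a c.e. subspace of infinite codimension contained in no maximal c.e. subspace. -/
def AtomlessSubspace {F V : Type} [Field F] [AddCommGroup V] [Module F V] [Primcodable V]
    (U : Submodule F V) : Prop :=
  (REPred fun v => v ∈ U) ∧ ¬ FiniteDimensional F (V ⧸ U) ∧
    ¬ ∃ M : Submodule F V, U ≤ M ∧ MaximalSubspace M

theorem result (F V : Type) [Field F] [AddCommGroup V] [Module F V] [Primcodable V]
    (hdep : ComputablePred fun l : List V => LinearIndepOn F id {w | w ∈ l})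
    (B : Set V) (hBc : ComputablePred fun v => v ∈ B) (hBi : LinearIndepOn F id B)
    (hBs : Submodule.span F B = ⊤) (A : Set V) (hA : AtomlessIn B A) :
    AtomlessSubspace (Submodule.span F A) := by
  obtain ⟨h1, h2, h3, h4⟩ := hA
  refine ⟨Lib.MP_a0087d_lc.re_span hdep h1, Lib.MP_a0087d_lc.not_fd_span hBi h2 h3, ?_⟩
  rintro ⟨M, hAM, hM1, hM2, hM3⟩
  obtain ⟨D, d1, d2, d3, d4, d5⟩ := Lib.MP_a0087d_lc.exists_maximal hdep hBc hBs hM1 hM2 hM3
  exact h4 ⟨D, fun v hv => d1 v (h2 hv) (hAM (Submodule.subset_span hv)), d2, d3, d4, d5⟩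

end Pool.Agent.Results.MP_a0087d_lc.SpanAtomless
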